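import Mathlib

namespace Pool.Agent.Results.MP_ea4c65_al.DeepShadow

variable {G : Type} [Group G]

/-- The Cayley graph of `(G, S)`. -/
def cayley (S : Finset G) : SimpleGraph G := SimpleGraph.fromRel fun x y => ∃ s ∈ S, y = x * s

/-- Word length `|x| = d(e, x)`. -/
noncomputable def wl (S : Finset G) (x : G) : ℕ := (cayley S).dist 1 x

/-- There is a strictly increasing path to infinity from `x`. -/
def Escapes (S : Finset G) (x : G) : Prop :=
  ∃ π : ℕ → G, π 0 = x ∧ ∀ i, (cayley S).Adj (π i) (π (i + 1)) ∧ wl S (π i) < wl S (π (i + 1))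

/-- `y` lies on some geodesic from `e` to `x`. -/
def OnGeodesic (S : Finset G) (y x : G) : Prop :=
  ∃ w : (cayley S).Walk 1 x, w.length = wl S x ∧ y ∈ w.support

/-- The depth of the shadow of `x`. -/
noncomputable def sd (S : Finset G) (x : G) : ℕ :=
  sInf {k | ∃ y, wl S y + k = wl S x ∧ Escapes S y ∧ OnGeodesic S y x}

abbrev H : Type := Multiplicative (ℤ × ZMod 4)

def el (k : ℤ) (g : ZMod 4) : H := Multiplicative.ofAdd (k, g)

def S0 : Finset H := {el 0 1, el 1 0, el 1 1}

def steps : List (ℤ × ZMod 4) := [(0, 1), (1, 0), (1, 1), (0, -1), (-1, 0), (-1, -1)]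

theorem adj_iff (x y : H) : (cayley S0).Adj x y ↔ y.toAdd - x.toAdd ∈ steps := by
  rw [cayley, SimpleGraph.fromRel_adj]
  constructor
  · rintro ⟨-, ⟨s, hs, rfl⟩ | ⟨s, hs, rfl⟩⟩ <;>
      simp only [S0, Finset.mem_insert, Finset.mem_singleton] at hs <;>
      rcases hs with rfl | rfl | rfl <;> simp [el, steps]
  · intro h
    refine ⟨?_, ?_⟩
    · rintro rfl
      rw [sub_self] at h
      revert h; decide
    · have key : ∀ a b : H, ∀ p : ℤ × ZMod 4, b.toAdd - a.toAdd = p →
          b = a * Multiplicative.ofAdd p := by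
        intro a b p hp; rw [← hp]; simp
      simp only [steps, List.mem_cons, List.not_mem_nil, or_false] at h
      rcases h with h | h | h | h | h | h
      · exact Or.inl ⟨_, by simp [S0, el], key _ _ _ h⟩
      · exact Or.inl ⟨_, by simp [S0, el], key _ _ _ h⟩
      · exact Or.inl ⟨_, by simp [S0, el], key _ _ _ h⟩
      · exact Or.inr ⟨el 0 1, by simp [S0], key _ _ _ (by rw [← neg_sub, h]; simp)⟩
      · exact Or.inr ⟨el 1 0, by simp [S0], key _ _ _ (by rw [← neg_sub, h]; simp)⟩
      · exact Or.inr ⟨el 1 1, by simp [S0], key _ _ _ (by rw [← neg_sub, h]; simp)⟩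

theorem adj_fst {x y : H} (h : (cayley S0).Adj x y) : |y.toAdd.1 - x.toAdd.1| ≤ 1 := by
  rw [adj_iff] at h
  have : ∀ p ∈ steps, |p.1| ≤ 1 := by decide
  exact this _ h

theorem walk_fst {x y : H} (w : (cayley S0).Walk x y) : |y.toAdd.1 - x.toAdd.1| ≤ w.length := by
  induction w with
  | nil => simp
  | cons h w ih =>
    have := adj_fst h
    rw [SimpleGraph.Walk.length_cons, abs_le] at *
    push_cast
    constructor <;> linarith [this.1, this.2, ih.1, ih.2]

def R (n : ℕ) (x : H) : Prop := ∃ w : (cayley S0).Walk 1 x, w.length ≤ n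

theorem R_step {n : ℕ} {x : H} (h : R n x) (p : ℤ × ZMod 4) (hp : p ∈ (0 :: steps)) :
    R (n + 1) (x * Multiplicative.ofAdd p) := by
  obtain ⟨w, hw⟩ := h
  rcases List.mem_cons.1 hp with rfl | hp
  · exact ⟨w.copy rfl (by simp), by simp; omega⟩
  · exact ⟨w.concat ((adj_iff _ _).2 (by simpa using hp)), by simp; omega⟩

theorem R0 : R 0 1 := ⟨.nil, le_rfl⟩

theorem R_le {n : ℕ} {x : H} (h : R n x) : wl S0 x ≤ n := by
  obtain ⟨w, hw⟩ := h
  exact (SimpleGraph.dist_le w).trans hw

theorem small (x : H) (h : |x.toAdd.1| ≤ 3) : wl S0 x ≤ 3 := by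
  have key : ∀ k ∈ ([-3, -2, -1, 0, 1, 2, 3] : List ℤ), ∀ g : ZMod 4,
      ∃ a ∈ (0 :: steps), ∃ b ∈ (0 :: steps), ∃ c ∈ (0 :: steps), a + b + c = (k, g) := by
    decide +kernel
  obtain ⟨a, ha, b, hb, c, hc, he⟩ := key x.toAdd.1 (by
    rw [abs_le] at h
    obtain ⟨h1, h2⟩ := h
    generalize x.toAdd.1 = k at *
    interval_cases k <;> simp) x.toAdd.2
  have := R_step (R_step (R_step R0 a ha) b hb) c hc
  rw [one_mul, ← ofAdd_add, ← ofAdd_add, he] at this
  exact R_le this

theorem not_escape (y : H) (h0 : y.toAdd.1 = 0) (h1 : 1 ≤ wl S0 y) : ¬ Escapes S0 y := by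
  rintro ⟨π, hπ, h⟩
  have a0 := adj_fst (h 0).1
  have a1 := adj_fst (h 1).1
  have a2 := adj_fst (h 2).1
  have b0 := (h 0).2
  have b1 := (h 1).2
  have b2 := (h 2).2
  rw [hπ] at a0 b0
  rw [h0] at a0
  have := small (π 3) (by
    rw [abs_le] at *
    norm_num at a0 a1 a2 ⊢
    constructor <;> linarith [a0.1, a0.2, a1.1, a1.2, a2.1, a2.2])
  norm_num at b0 b1 b2
  omega

theorem wl_line (i : ℕ) : wl S0 (el i 0) = i := by
  have hR : R i (el i 0) := by
    induction i with
    | zero => exact R0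
    | succ i ih =>
      have := R_step ih (1, 0) (by decide)
      rwa [el, ← ofAdd_add, Prod.mk_add_mk, add_zero, ← Nat.cast_succ] at this
  refine le_antisymm (R_le hR) ?_
  obtain ⟨w, -⟩ := hR
  obtain ⟨w', hw'⟩ := w.reachable.exists_walk_length_eq_dist
  have := walk_fst w'
  rw [hw'] at this
  simpa [el, wl] using this

theorem R2 : R 2 (el 0 2) := by
  have := R_step (R_step R0 (0, 1) (by decide)) (0, 1) (by decide)
  rwa [one_mul, ← ofAdd_add] at this

theorem wl_x : wl S0 (el 0 2) = 2 := by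
  refine le_antisymm (R_le R2) ?_
  obtain ⟨w, -⟩ := R2
  by_contra hlt
  have h : wl S0 (el 0 2) = 0 ∨ wl S0 (el 0 2) = 1 := by omega
  rcases h with h | h
  · have := (w.reachable.dist_eq_zero_iff).1 h
    revert this; decide
  · have := (adj_iff _ _).1 (SimpleGraph.dist_eq_one_iff_adj.1 h)
    revert this; decide

theorem geo (y : H) (h : OnGeodesic S0 y (el 0 2)) : y.toAdd.1 = 0 := by
  obtain ⟨w, hw, hy⟩ := h
  rw [wl_x] at hw
  generalize hx : el 0 2 = x at w hw hy
  cases w with
  | nil => simp at hw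
  | cons h1 w =>
    cases w with
    | nil => simp at hw
    | cons h2 w =>
      cases w with
      | cons h3 w => simp at hw
      | nil =>
        subst hx
        simp only [SimpleGraph.Walk.support_cons, SimpleGraph.Walk.support_nil, List.mem_cons,
          List.not_mem_nil, or_false] at hy
        rcases hy with rfl | rfl | rfl
        · rfl
        · rw [adj_iff] at h1 h2
          have key : ∀ p ∈ steps, ((0, 2) : ℤ × ZMod 4) - p ∈ steps → p.1 = 0 := by decide
          have := key _ h1 (by simpa [el] using h2)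
          simpa using this
        · rfl

theorem result : ∃ (G : Type) (_ : Group G) (S : Finset G) (x : G), Infinite G ∧
    Subgroup.closure (S : Set G) = ⊤ ∧ ⌈(wl S x : ℚ) / 2⌉₊ < sd S x := by
  refine ⟨H, inferInstance, S0, el 0 2, inferInstance, ?_, ?_⟩
  · rw [eq_top_iff]
    intro x _
    have h1 : el 0 1 ∈ Subgroup.closure (S0 : Set H) := Subgroup.subset_closure (by simp [S0])
    have h2 : el 1 0 ∈ Subgroup.closure (S0 : Set H) := Subgroup.subset_closure (by simp [S0])
    have : x = el 1 0 ^ x.toAdd.1 * el 0 1 ^ x.toAdd.2.val := by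
      apply Multiplicative.toAdd.injective
      ext <;> simp [el]
    rw [this]
    exact mul_mem (zpow_mem h2 _) (pow_mem h1 _)
  · have hc : ⌈((wl S0 (el 0 2) : ℕ) : ℚ) / 2⌉₊ = 1 := by rw [wl_x]; norm_num
    rw [hc]
    have hne : {k | ∃ y, wl S0 y + k = wl S0 (el 0 2) ∧ Escapes S0 y ∧
        OnGeodesic S0 y (el 0 2)}.Nonempty := by
      refine ⟨2, 1, by rw [wl_x]; simp [wl], ⟨fun i => el i 0, rfl, fun i => ⟨?_, ?_⟩⟩, ?_⟩
      · rw [adj_iff]; simp [el, steps]
      · rw [wl_line, wl_line]; omega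
      · obtain ⟨w, -⟩ := R2
        obtain ⟨w', hw'⟩ := w.reachable.exists_walk_length_eq_dist
        exact ⟨w', hw', w'.start_mem_support⟩
    obtain ⟨y, hy, he, hg⟩ := Nat.sInf_mem hne
    by_contra hlt
    rw [wl_x] at hy
    refine not_escape y (geo y hg) ?_ he
    unfold sd at hlt
    rw [wl_x] at hlt
    omega

end Pool.Agent.Results.MP_ea4c65_al.DeepShadow
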